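import Pool.Agent.ZES.StmtsF

/-!
# Squad ZES, row PR2: product of two theta series with different characteristics
(adapted from the row PRD of THS by helper53)
-/

set_option autoImplicit false

namespace Pool.Agent.ZES.H49

open scoped BigOperators Topology
open Pool.Agent.THS Pool.Agent.ZES

theorem summ_norm (hT : TbdStatement) {g : ℕ} {τ : Matrix (Fin g) (Fin g) ℂ} (hτ : Siegel τ)
    (s : Fin g → ℝ) (z : Fin g → ℂ) : Summable (fun n => ‖tht τ s z n‖) := by
  obtain ⟨u, hu, hb⟩ := hT g τ hτ (∑ i, |s i| + ∑ i, ‖z i‖)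
  refine Summable.of_nonneg_of_le (fun n => norm_nonneg _) (fun n => ?_) hu
  refine hb s z (fun i => ?_) (fun i => ?_) n
  · have h1 := Finset.single_le_sum (f := fun i => |s i|) (fun i _ => abs_nonneg _)
      (Finset.mem_univ i)
    have h2 : 0 ≤ ∑ i, ‖z i‖ := Finset.sum_nonneg (fun i _ => norm_nonneg _)
    linarith
  · have h1 := Finset.single_le_sum (f := fun i => ‖z i‖) (fun i _ => norm_nonneg _)
      (Finset.mem_univ i)
    have h2 : 0 ≤ ∑ i, |s i| := Finset.sum_nonneg (fun i _ => abs_nonneg _)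
    linarith

theorem siegel_two {g : ℕ} {τ : Matrix (Fin g) (Fin g) ℂ} (hτ : Siegel τ) :
    Siegel ((2 : ℂ) • τ) := by
  refine ⟨?_, ?_⟩
  · rw [Matrix.transpose_smul, hτ.1]
  · have h : ((2 : ℂ) • τ).map Complex.im = (2 : ℝ) • (τ.map Complex.im) := by
      ext i j
      simp [Matrix.map_apply, Matrix.smul_apply]
    rw [h]
    exact hτ.2.smul (by norm_num)

theorem hv_add (g : ℕ) (c : Fin g → ZMod 2) (i : Fin g) :
    ((hv c i : ℝ) : ℂ) + ((hv c i : ℝ) : ℂ) = (((c i).val : ℤ) : ℂ) := by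
  unfold hv
  push_cast
  ring

theorem term_eq2 {g : ℕ} (τ : Matrix (Fin g) (Fin g) ℂ) (s s' : Fin g → ℝ) (x y : Fin g → ℂ)
    (c : Fin g → ZMod 2) (n l : Fin g → ℤ) :
    tht τ s x (fun i => n i + l i + ((c i).val : ℤ)) * tht τ s' y (fun i => n i - l i)
      = tht ((2 : ℂ) • τ) (fun i => (s i + s' i) / 2 + hv c i) (fun i => x i + y i) n
        * tht ((2 : ℂ) • τ) (fun i => (s i - s' i) / 2 + hv c i) (fun i => x i - y i) l := by
  unfold tht
  rw [← Complex.exp_add, ← Complex.exp_add]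
  congr 1
  set U : Fin g → ℂ := fun i => (n i : ℂ) + (((s i : ℂ) + (s' i : ℂ)) / 2 + ((hv c i : ℝ) : ℂ))
    with hU
  set W : Fin g → ℂ := fun i => (l i : ℂ) + (((s i : ℂ) - (s' i : ℂ)) / 2 + ((hv c i : ℝ) : ℂ))
    with hW
  have h1 : ∀ i, ((n i + l i + ((c i).val : ℤ) : ℤ) : ℂ) + (s i : ℂ) = U i + W i := by
    intro i
    have := hv_add g c i
    simp only [hU, hW]
    push_cast at this ⊢
    linear_combination (-1 : ℂ) * this
  have h2 : ∀ i, ((n i - l i : ℤ) : ℂ) + (s' i : ℂ) = U i - W i := by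
    intro i
    simp only [hU, hW]
    push_cast
    ring
  have h3 : ∀ i, (n i : ℂ) + (((s i + s' i) / 2 + hv c i : ℝ) : ℂ) = U i := by
    intro i
    simp only [hU]
    push_cast
    ring
  have h4 : ∀ i, (l i : ℂ) + (((s i - s' i) / 2 + hv c i : ℝ) : ℂ) = W i := by
    intro i
    simp only [hW]
    push_cast
    ring
  simp only [h1, h2, h3, h4]
  have hq : (∑ i, ∑ j, (U i + W i) * τ i j * (U j + W j))
      + (∑ i, ∑ j, (U i - W i) * τ i j * (U j - W j))
      = (∑ i, ∑ j, U i * ((2 : ℂ) • τ) i j * U j) + (∑ i, ∑ j, W i * ((2 : ℂ) • τ) i j * W j) := by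
    rw [← Finset.sum_add_distrib, ← Finset.sum_add_distrib]
    refine Finset.sum_congr rfl (fun i _ => ?_)
    rw [← Finset.sum_add_distrib, ← Finset.sum_add_distrib]
    refine Finset.sum_congr rfl (fun j _ => ?_)
    simp only [Matrix.smul_apply, smul_eq_mul]
    ring
  have hl : (∑ i, (U i + W i) * x i) + (∑ i, (U i - W i) * y i)
      = (∑ i, U i * (x i + y i)) + (∑ i, W i * (x i - y i)) := by
    rw [← Finset.sum_add_distrib, ← Finset.sum_add_distrib]
    refine Finset.sum_congr rfl (fun i _ => ?_)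
    ring
  linear_combination (Real.pi * Complex.I : ℂ) * hq + (2 * Real.pi * Complex.I : ℂ) * hl

theorem pr2 (hT : TbdStatement) (hB : BijStatement) : Pr2Stmt := by
  intro g τ hτ s s' x y
  have hx := summ_norm hT hτ s x
  have hy := summ_norm hT hτ s' y
  have h2τ := siegel_two hτ
  set e := Equiv.ofBijective _ (hB g) with he
  unfold ths
  rw [tsum_mul_tsum_of_summable_norm hx hy]
  have hs : Summable (fun p : (Fin g → ℤ) × (Fin g → ℤ) => tht τ s x p.1 * tht τ s' y p.2) :=
    summable_mul_of_summable_norm hx hy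
  rw [← e.tsum_eq]
  have hs2 : Summable (fun t : (Fin g → ZMod 2) × (Fin g → ℤ) × (Fin g → ℤ) =>
      tht τ s x (e t).1 * tht τ s' y (e t).2) := (e.summable_iff).mpr hs
  rw [hs2.tsum_prod, tsum_fintype]
  refine Finset.sum_congr rfl (fun c _ => ?_)
  have hc1 := summ_norm hT h2τ (fun i => (s i + s' i) / 2 + hv c i) (fun i => x i + y i)
  have hc2 := summ_norm hT h2τ (fun i => (s i - s' i) / 2 + hv c i) (fun i => x i - y i)
  rw [tsum_mul_tsum_of_summable_norm hc1 hc2]
  refine tsum_congr (fun p => ?_)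
  exact term_eq2 τ s s' x y c p.1 p.2

end Pool.Agent.ZES.H49
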